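import Pool.Agent.T6.H70.CoxT

set_option autoImplicit false

/-!
Bounded weight functions on Coxeter groups attain their bound on a finite standard parabolic
subgroup: for all infinite Coxeter groups of rank three, for all Coxeter systems of type FC, for
all two-dimensional ones, and in general the question is reduced to the 2-spherical standard
subsystems `J ∪ {t}` of rank at least four with `J` spherical.
-/

namespace Pool.Agent.Results.MP_562155_al.RankThreeAndFC

universe u v

variable {B : Type u} {W : Type v} [Group W] {M : CoxeterMatrix B}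

/-- The standard parabolic subgroup `W_J`. -/
def stdParabolic (cs : CoxeterSystem M W) (J : Set B) : Subgroup W :=
  Subgroup.closure (cs.simple '' J)

/-- Weight functions on `(W, S)`. -/
def IsWeightFunction (cs : CoxeterSystem M W) (φ : W → ℝ) : Prop :=
  ∀ g h : W, cs.length (g * h) = cs.length g + cs.length h → φ (g * h) = φ g + φ h

/-- Q1 for `(W, S)`: each bounded weight function attains its bound on `Sph(W)`. -/
def QOne (cs : CoxeterSystem M W) : Prop :=
  ∀ φ : W → ℝ, IsWeightFunction cs φ → BddAbove (Set.range φ) →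
    ∃ J : Set B, Finite (stdParabolic cs J) ∧ ∃ x ∈ stdParabolic cs J, φ x = sSup (Set.range φ)

/-- Q1 for the standard subsystem `(W_I, I)` of `(W, S)` (the length of `(W_I, I)` is the
restriction of the length of `(W, S)`): each bounded weight function `φ` on `W_I` attains its
bound at an element of a finite `W_J`, `J ⊆ I`. -/
def QOneOn (cs : CoxeterSystem M W) (I : Set B) : Prop :=
  ∀ φ : W → ℝ,
    (∀ g ∈ stdParabolic cs I, ∀ h ∈ stdParabolic cs I,
      cs.length (g * h) = cs.length g + cs.length h → φ (g * h) = φ g + φ h) →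
    BddAbove (φ '' (stdParabolic cs I : Set W)) →
    ∃ J ⊆ I, Finite (stdParabolic cs J) ∧
      ∃ x ∈ stdParabolic cs J, φ x = sSup (φ '' (stdParabolic cs I : Set W))

/-- All `m(s, t)` with `s, t ∈ I` are finite. -/
def TwoSpherical (M : CoxeterMatrix B) (I : Set B) : Prop := ∀ i ∈ I, ∀ j ∈ I, M i j ≠ 0

/-- Type FC: each set of generators with all `m(s, t)` finite generates a finite group. -/
def IsTypeFC (cs : CoxeterSystem M W) : Prop :=
  ∀ J : Set B, TwoSpherical M J → Finite (stdParabolic cs J)

/-- `1 / m(r, s) + 1 / m(r, t) + 1 / m(s, t) ≤ 1` (for finite labels), that is, the triangle group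
generated by `r, s, t` is infinite. -/
def TriangleCond (M : CoxeterMatrix B) (r s t : B) : Prop :=
  M r s * M r t + M r t * M s t + M s t * M r s ≤ M r s * M r t * M s t

/-- `J ∪ {t}` is an infinite triangle. -/
def IsTriangle (M : CoxeterMatrix B) (J : Set B) (t : B) : Prop :=
  ∃ r s : B, r ≠ s ∧ J = {r, s} ∧ TriangleCond M r s t

/-- All triples of generators with finite labels satisfy `TriangleCond`. -/
def NoSphericalTriple (M : CoxeterMatrix B) : Prop :=
  ∀ r s t : B, r ≠ s → r ≠ t → s ≠ t → M r s ≠ 0 → M r t ≠ 0 → M s t ≠ 0 → TriangleCond M r s t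

theorem result [Finite B] (cs : CoxeterSystem M W) :
    ((∀ (J : Set B) (t : B), t ∉ J → Finite (stdParabolic cs J) →
        Infinite (stdParabolic cs (insert t J)) → TwoSpherical M (insert t J) →
        IsTriangle M J t ∨ QOneOn cs (insert t J)) → QOne cs) ∧
    (IsTypeFC cs → QOne cs) ∧
    (Nat.card B ≤ 3 → NoSphericalTriple M → QOne cs) ∧
    ((∀ J : Set B, Finite (stdParabolic cs J) → J.ncard ≤ 2) → NoSphericalTriple M → QOne cs) := by
  classical
  haveI := Fintype.ofFinite B
  have main : (∀ (J : Set B) (t : B), t ∉ J → Finite (stdParabolic cs J) →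
        Infinite (stdParabolic cs (insert t J)) → TwoSpherical M (insert t J) →
        IsTriangle M J t ∨ QOneOn cs (insert t J)) → QOne cs := by
    intro H φ hφ hb
    obtain ⟨C, hC⟩ := id hb
    have hC' : ∀ g, φ g ≤ C := fun g => hC ⟨g, rfl⟩
    obtain ⟨J, hJ, x, hx, hmax⟩ := Pool.Agent.T6.H70.CX.main (cs := cs) φ hφ C hC' (by
      intro J t ht hJ hinf hM
      have h2 : TwoSpherical M (insert t J) := by
        intro i hi j hj
        rcases Set.mem_insert_iff.1 hi with hi' | hi'
        · rcases Set.mem_insert_iff.1 hj with hj' | hj'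
          · rw [hi', hj', M.diagonal]; exact one_ne_zero
          · rw [hi', M.symmetric]; exact hM j hj'
        · rcases Set.mem_insert_iff.1 hj with hj' | hj'
          · rw [hj']; exact hM i hi'
          · exact Pool.Agent.T6.H70.CX.M_ne_zero_of_finite (cs := cs) hJ hi' hj'
      have hinf' : Infinite (stdParabolic cs (insert t J)) := not_finite_iff_infinite.1 hinf
      rcases H J t ht hJ hinf' h2 with hT | hQ
      · exact Or.inl hT
      · right
        have hbI : BddAbove (φ '' (stdParabolic cs (insert t J) : Set W)) :=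
          hb.mono (Set.image_subset_range _ _)
        obtain ⟨K, _, hK, z, hz, hzz⟩ := hQ φ (fun g _ h _ => hφ g h) hbI
        refine ⟨K, hK, z, hz, ?_⟩
        intro y hy
        rw [hzz]
        exact le_csSup hbI ⟨y, hy, rfl⟩)
    refine ⟨J, hJ, x, hx, ?_⟩
    have hg : IsGreatest (Set.range φ) (φ x) := ⟨⟨x, rfl⟩, by
      rintro _ ⟨y, rfl⟩
      exact hmax y⟩
    exact hg.csSup_eq.symm
  -- the case where `J` has at most two elements
  have small : ∀ (J : Set B) (t : B), t ∉ J → J.ncard ≤ 2 → NoSphericalTriple M →
      Infinite (stdParabolic cs (insert t J)) → TwoSpherical M (insert t J) →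
      IsTriangle M J t := by
    intro J t ht hJ hN hinf h2
    have hcases : J.ncard = 0 ∨ J.ncard = 1 ∨ J.ncard = 2 := by omega
    rcases hcases with h | h | h
    · exfalso
      have h0 : J = ∅ := (Set.ncard_eq_zero (Set.toFinite J)).1 h
      have hpair : (insert t J : Set B) = {t, t} := by rw [h0]; simp
      rw [hpair] at hinf
      have hfin : Finite (stdParabolic cs ({t, t} : Set B)) :=
        Pool.Agent.T6.H70.CX.finite_pair (cs := cs) (s := t) (t := t)
          (by rw [M.diagonal]; exact one_ne_zero)
      exact not_finite_iff_infinite.2 hinf hfin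
    · exfalso
      obtain ⟨a, ha⟩ := Set.ncard_eq_one.1 h
      rw [ha] at hinf h2
      have hfin : Finite (stdParabolic cs ({t, a} : Set B)) :=
        Pool.Agent.T6.H70.CX.finite_pair (cs := cs) (s := a) (t := t)
          (h2 a (by simp) t (by simp))
      exact not_finite_iff_infinite.2 hinf hfin
    · obtain ⟨r, s, hrs, hJe⟩ := Set.ncard_eq_two.1 h
      refine ⟨r, s, hrs, hJe, ?_⟩
      rw [hJe] at ht h2
      apply hN r s t hrs (fun h => ht (by simp [h])) (fun h => ht (by simp [h]))
      · exact h2 r (by simp) s (by simp)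
      · exact h2 r (by simp) t (by simp)
      · exact h2 s (by simp) t (by simp)
  refine ⟨main, fun hFC => main ?_, fun hcard hN => main ?_, fun hdim hN => main ?_⟩
  · intro J t _ _ hinf h2
    exact (not_finite_iff_infinite.2 hinf (hFC _ h2)).elim
  · intro J t ht _ hinf h2
    left
    apply small J t ht ?_ hN hinf h2
    have h3 : (insert t J : Set B).ncard ≤ Nat.card B := Set.ncard_le_card _
    rw [Set.ncard_insert_of_notMem ht (Set.toFinite J)] at h3
    omega
  · intro J t ht hJ hinf h2
    exact Or.inl (small J t ht (hdim J hJ) hN hinf h2)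

end Pool.Agent.Results.MP_562155_al.RankThreeAndFC
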